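import Pool.Agent.helper38.OB.Spec

set_option autoImplicit false

namespace Pool.Agent.OB

open Finset

theorem MS_tel (J l0 : ℕ) (hl : J < l0) : ∀ L : ℕ,
    ∑ l ∈ Finset.Icc l0 L, (1 / ((l : ℝ) - J) - 1 / ((l : ℝ) + 1 - J)) ≤ 1 / ((l0 : ℝ) - J) := by
  have h0 : (0 : ℝ) < (l0 : ℝ) - J := by
    have : (J : ℝ) < l0 := by exact_mod_cast hl
    linarith
  intro L
  by_cases hL : L < l0
  · rw [Finset.Icc_eq_empty (by omega), Finset.sum_empty]
    positivity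
  · push Not at hL
    have key : ∀ L : ℕ, l0 ≤ L → ∑ l ∈ Finset.Icc l0 L, (1 / ((l : ℝ) - J) - 1 / ((l : ℝ) + 1 - J)) =
        1 / ((l0 : ℝ) - J) - 1 / ((L : ℝ) + 1 - J) := by
      intro L hL
      induction L, hL using Nat.le_induction with
      | base => simp
      | succ n hn ih =>
        rw [Finset.sum_Icc_succ_top (by omega), ih]
        push_cast
        ring
    rw [key L hL]
    have h1 : (l0 : ℝ) ≤ L := by exact_mod_cast hL
    have : 0 ≤ 1 / ((L : ℝ) + 1 - J) := by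
      apply div_nonneg zero_le_one
      linarith
    linarith

theorem MS (hBAS : BAS_stmt) (hWTS : WTS_stmt) (hTC : TC_stmt) : MS_stmt := by
  classical
  intro h hodd hh J δ hδ
  obtain ⟨C, hC, hT⟩ := hTC h hodd hh
  have hC0 : 2 ≤ C0 h := by
    have : 1 ≤ h ^ 2 := Nat.one_le_pow _ _ (by omega)
    simp only [C0]
    omega
  have hC0r : (0 : ℝ) < C0 h := by
    have : 0 < C0 h := by omega
    exact_mod_cast this
  have hBsr : (0 : ℝ) < Bs h := by
    have : 0 < Bs h := by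
      simp only [Bs, be]
      positivity
    exact_mod_cast this
  obtain ⟨R, hR⟩ : ∃ R : ℝ, R = C * (Bs h : ℝ) ^ J * (C0 h : ℝ) ^ 5 := ⟨_, rfl⟩
  have hRpos : 0 < R := by
    rw [hR]
    positivity
  obtain ⟨m, hm⟩ := exists_nat_ge (R / δ)
  refine ⟨J + 1 + m, fun l0 hl0 L κ hκ hκ1 e he => ?_⟩
  have hwt : ∀ x, 0 ≤ wt h κ x := fun x => ((hWTS h hh κ hκ hκ1 (lev h x)).2.1).le
  have hlev : ∀ k x, x ∈ S h k → lev h x = k := fun k x hx => ((hBAS h hh k).1 x hx).1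
  have hmem : ∀ (V : Finset ℕ) (x : Fin h → ℕ), x ∈ RN e 0 (Bs h ^ J) V ↔
      (∀ i, x i ∈ V) ∧ Function.Injective x ∧ |0 + lf e x| ≤ ((Bs h ^ J : ℕ) : ℤ) := by
    intro V x
    simp only [RN, RQ, Inj, Finset.mem_filter, Fintype.mem_piFinset, and_assoc]
  have hU : ∀ (M x : ℕ), x ∈ U h l0 M ↔ ∃ k, l0 ≤ k ∧ k ≤ M ∧ x ∈ S h k := by
    intro M x
    simp only [U, Finset.mem_biUnion, Finset.mem_Icc, and_assoc]
  have hne : (Finset.univ : Finset (Fin h)).Nonempty := ⟨⟨0, by omega⟩, Finset.mem_univ _⟩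
  obtain ⟨M, hM⟩ : ∃ M : (Fin h → ℕ) → ℕ, M = fun x => Finset.univ.sup fun i => lev h (x i) := ⟨_, rfl⟩
  have hMI : ∀ x ∈ RN e 0 (Bs h ^ J) (U h l0 L), M x ∈ Finset.Icc l0 L ∧
      x ∈ top h (M x) (RN e 0 (Bs h ^ J) (U h l0 (M x))) := by
    intro x hx
    obtain ⟨h1, h2, h3⟩ := (hmem _ x).mp hx
    obtain ⟨i0, -, hi0⟩ := Finset.exists_mem_eq_sup Finset.univ hne fun i => lev h (x i)
    have hle : ∀ i, lev h (x i) ≤ M x := fun i => by
      rw [hM]
      exact Finset.le_sup (f := fun i => lev h (x i)) (Finset.mem_univ i)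
    have hi0' : lev h (x i0) = M x := by
      rw [hM]
      exact hi0.symm
    refine ⟨?_, ?_⟩
    · obtain ⟨k, hk1, hk2, hk3⟩ := (hU _ _).mp (h1 i0)
      rw [← hi0', hlev k _ hk3]
      exact Finset.mem_Icc.mpr ⟨hk1, hk2⟩
    · unfold top
      rw [Finset.mem_filter]
      refine ⟨(hmem _ x).mpr ⟨fun i => ?_, h2, h3⟩, i0, hi0'⟩
      obtain ⟨k, hk1, hk2, hk3⟩ := (hU _ _).mp (h1 i)
      refine (hU _ _).mpr ⟨k, hk1, ?_, hk3⟩
      rw [← hlev k _ hk3]
      exact hle i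
  have hstep : Ex h κ (RN e 0 (Bs h ^ J) (U h l0 L)) ≤
      ∑ l ∈ Finset.Icc l0 L, Ex h κ (top h l (RN e 0 (Bs h ^ J) (U h l0 l))) := by
    unfold Ex
    rw [← Finset.sum_fiberwise_of_maps_to (fun x hx => (hMI x hx).1)]
    refine Finset.sum_le_sum fun l _ => ?_
    refine Finset.sum_le_sum_of_subset_of_nonneg ?_ fun x _ _ => Finset.prod_nonneg fun i _ => hwt _
    intro x hx
    rw [Finset.mem_filter] at hx
    obtain ⟨hx1, rfl⟩ := hx
    exact (hMI x hx1).2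
  have hb : ∀ l ∈ Finset.Icc l0 L, Ex h κ (top h l (RN e 0 (Bs h ^ J) (U h l0 l))) ≤
      R * (1 / ((l : ℝ) - J) - 1 / ((l : ℝ) + 1 - J)) := by
    intro l hl
    rw [Finset.mem_Icc] at hl
    have h1 := hT κ hκ hκ1 l0 l e he J (by omega)
    refine h1.trans ?_
    obtain ⟨a, ha⟩ : ∃ a, l = J + a := ⟨l - J, by omega⟩
    have ha1 : 1 ≤ a := by omega
    have hmin : a + 1 ≤ C0 h ^ (min (l - J) (dep h l) + 1) := by
      rcases le_total (l - J) (dep h l) with h2 | h2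
      · rw [min_eq_left h2, show l - J = a by omega]
        exact (Nat.lt_pow_self (by omega : 1 < C0 h)).le
      · rw [min_eq_right h2]
        have h3 := ((hBAS h hh l).2.2.2.2.2).le
        omega
    have hminr : ((a : ℝ) + 1) ≤ (C0 h : ℝ) ^ (min (l - J) (dep h l)) * C0 h := by
      rw [← pow_succ]
      exact_mod_cast hmin
    have har : (1 : ℝ) ≤ a := by exact_mod_cast ha1
    have h5 : ((a : ℝ) + 1) ^ 5 ≤ (C0 h : ℝ) ^ (5 * min (l - J) (dep h l)) * (C0 h : ℝ) ^ 5 := by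
      calc ((a : ℝ) + 1) ^ 5 ≤ ((C0 h : ℝ) ^ (min (l - J) (dep h l)) * C0 h) ^ 5 :=
            pow_le_pow_left₀ (by positivity) hminr 5
        _ = _ := by rw [mul_pow, ← pow_mul, mul_comm (min (l - J) (dep h l)) 5]
    have h6 : (a : ℝ) * (a + 1) ≤ ((a : ℝ) + 1) ^ 5 := by
      have h7 : (a : ℝ) * (a + 1) ≤ ((a : ℝ) + 1) ^ 2 := by nlinarith
      exact h7.trans (pow_le_pow_right₀ (by linarith) (by norm_num))
    have hcast : ((l : ℝ) - J) = a := by
      rw [ha]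
      push_cast
      ring
    have hrhs : R * (1 / ((l : ℝ) - J) - 1 / ((l : ℝ) + 1 - J)) = R / ((a : ℝ) * (a + 1)) := by
      rw [show (l : ℝ) + 1 - J = a + 1 by linarith, hcast]
      field_simp
      ring
    rw [hrhs, hR, div_le_div_iff₀ (by positivity) (by positivity)]
    have hκh : κ ^ h ≤ 1 := pow_le_one₀ hκ.le hκ1
    have hκh0 : 0 ≤ κ ^ h := by positivity
    calc C * κ ^ h * (Bs h : ℝ) ^ J * ((a : ℝ) * (a + 1))
        ≤ C * 1 * (Bs h : ℝ) ^ J *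
          ((C0 h : ℝ) ^ (5 * min (l - J) (dep h l)) * (C0 h : ℝ) ^ 5) := by
          have := h6.trans h5
          gcongr
      _ = _ := by ring
  refine hstep.trans ((Finset.sum_le_sum hb).trans ?_)
  rw [← Finset.mul_sum]
  refine (mul_le_mul_of_nonneg_left (MS_tel J l0 (by omega) L) hRpos.le).trans ?_
  have h8 : (m : ℝ) ≤ (l0 : ℝ) - J := by
    have : J + 1 + m ≤ l0 := hl0
    have : (J : ℝ) + 1 + m ≤ l0 := by exact_mod_cast this
    linarith
  have h9 : (0 : ℝ) < (l0 : ℝ) - J := by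
    have : J + 1 ≤ l0 := by omega
    have : (J : ℝ) + 1 ≤ l0 := by exact_mod_cast this
    linarith
  rw [mul_one_div, div_le_iff₀ h9]
  rw [div_le_iff₀ hδ] at hm
  nlinarith

end Pool.Agent.OB
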